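import Mathlib

/-!
# Every admissible parameter set of a double or triple array has `v ≥ r + c - 1`

Admissibility is the purely arithmetic condition of the problem: `r, c ≥ 2`,
`max r c < v ≤ r c / 2`, `v ∣ r c`, and, with `e = r c / v`, `(r - 1) ∣ c (e - 1)` and
`(c - 1) ∣ r (e - 1)`.
-/

namespace Pool.Agent.Results.MP_4cb54f_co.NoSmallAdmissible

/-- The triple `(v, r, c)` is admissible for double (equivalently, triple) arrays. -/
structure Admissible (v r c : ℕ) : Prop where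
  two_le_r : 2 ≤ r
  two_le_c : 2 ≤ c
  max_lt : max r c < v
  le_half : 2 * v ≤ r * c
  dvd : v ∣ r * c
  rows : (r - 1) ∣ c * (r * c / v - 1)
  cols : (c - 1) ∣ r * (r * c / v - 1)

/-- the arithmetic core, in terms of `x = r - 1 = g a`, `y = c - 1 = g b`, `e - 1 = g F`,
`v - 1 = g W` -/
theorem core (g a b F W : ℕ) (hg : 0 < g) (ha : 0 < a) (hb : 0 < b) (hF : 0 < F)
    (hab : Nat.Coprime a b) (h1 : (g * F + 1) * (g * W + 1) = (g * a + 1) * (g * b + 1))
    (hWa : a < W) (hWb : b < W) (hS : W < a + b)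
    (hd1 : a ∣ (g * b + 1) * F) (hd2 : b ∣ (g * a + 1) * F) : False := by
  -- the basic identity
  have e1 : g * (F * W) + F + W = g * (a * b) + a + b := by
    have h2 : g * (g * (F * W) + F + W) = g * (g * (a * b) + a + b) := by nlinarith
    exact Nat.eq_of_mul_eq_mul_left hg h2
  -- `F < a`, `F < b`
  have hFa : F < a := by
    by_contra hcon
    push Not at hcon
    have h3 : (g * a + 1) * (g * b + 1) < (g * F + 1) * (g * W + 1) := by
      have h4 : g * a + 1 ≤ g * F + 1 := by nlinarith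
      have h5 : g * b + 1 < g * W + 1 := by nlinarith
      exact Nat.mul_lt_mul_of_le_of_lt h4 h5 (by positivity)
    omega
  have hFb : F < b := by
    by_contra hcon
    push Not at hcon
    have h3 : (g * a + 1) * (g * b + 1) < (g * W + 1) * (g * F + 1) := by
      have h4 : g * b + 1 ≤ g * F + 1 := by nlinarith
      have h5 : g * a + 1 < g * W + 1 := by nlinarith
      exact Nat.mul_lt_mul_of_lt_of_le h5 h4 (by positivity)
    rw [mul_comm (g * W + 1)] at h3
    omega
  -- the common divisors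
  obtain ⟨a', ha'⟩ : ∃ a', a' = Nat.gcd a F := ⟨_, rfl⟩
  obtain ⟨b', hb'⟩ : ∃ b', b' = Nat.gcd b F := ⟨_, rfl⟩
  have ha'0 : 0 < a' := by rw [ha']; exact Nat.gcd_pos_of_pos_left _ ha
  have hb'0 : 0 < b' := by rw [hb']; exact Nat.gcd_pos_of_pos_left _ hb
  obtain ⟨A, hA⟩ : a' ∣ a := by rw [ha']; exact Nat.gcd_dvd_left _ _
  obtain ⟨B, hB⟩ : b' ∣ b := by rw [hb']; exact Nat.gcd_dvd_left _ _
  obtain ⟨F₁, hF₁⟩ : a' ∣ F := by rw [ha']; exact Nat.gcd_dvd_right _ _
  obtain ⟨F₂, hF₂⟩ : b' ∣ F := by rw [hb']; exact Nat.gcd_dvd_right _ _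
  have hA0 : 0 < A := Nat.pos_of_ne_zero (by rintro rfl; simp at hA; omega)
  have hB0 : 0 < B := Nat.pos_of_ne_zero (by rintro rfl; simp at hB; omega)
  have hcA : Nat.Coprime A F₁ := by
    have h2 := Nat.coprime_div_gcd_div_gcd (m := a) (n := F) (by rw [← ha']; exact ha'0)
    rw [← ha'] at h2
    have e2 : a / a' = A := by rw [hA]; exact Nat.mul_div_cancel_left _ ha'0
    have e3 : F / a' = F₁ := by rw [hF₁]; exact Nat.mul_div_cancel_left _ ha'0
    rwa [e2, e3] at h2
  have hcB : Nat.Coprime B F₂ := by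
    have h2 := Nat.coprime_div_gcd_div_gcd (m := b) (n := F) (by rw [← hb']; exact hb'0)
    rw [← hb'] at h2
    have e2 : b / b' = B := by rw [hB]; exact Nat.mul_div_cancel_left _ hb'0
    have e3 : F / b' = F₂ := by rw [hF₂]; exact Nat.mul_div_cancel_left _ hb'0
    rwa [e2, e3] at h2
  have hc' : Nat.Coprime a' b' :=
    Nat.Coprime.coprime_dvd_left ⟨A, hA⟩ (Nat.Coprime.coprime_dvd_right ⟨B, hB⟩ hab)
  have hAB : Nat.Coprime A B :=
    Nat.Coprime.coprime_dvd_left ⟨a', by rw [hA, mul_comm]⟩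
      (Nat.Coprime.coprime_dvd_right ⟨b', by rw [hB, mul_comm]⟩ hab)
  obtain ⟨f, hf⟩ : a' * b' ∣ F := Nat.Coprime.mul_dvd_of_dvd_of_dvd hc' ⟨F₁, hF₁⟩ ⟨F₂, hF₂⟩
  have hf0 : 0 < f := Nat.pos_of_ne_zero (by rintro rfl; simp at hf; omega)
  -- `A ∣ g b + 1`, `B ∣ g a + 1`
  have hdA : A ∣ g * b + 1 := by
    have h2 : a' * A ∣ a' * ((g * b + 1) * F₁) := by
      rw [← hA]
      have : a' * ((g * b + 1) * F₁) = (g * b + 1) * F := by rw [hF₁]; ring
      rw [this]; exact hd1
    have h3 := Nat.dvd_of_mul_dvd_mul_left ha'0 h2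
    exact Nat.Coprime.dvd_of_dvd_mul_right hcA h3
  have hdB : B ∣ g * a + 1 := by
    have h2 : b' * B ∣ b' * ((g * a + 1) * F₂) := by
      rw [← hB]
      have : b' * ((g * a + 1) * F₂) = (g * a + 1) * F := by rw [hF₂]; ring
      rw [this]; exact hd2
    have h3 := Nat.dvd_of_mul_dvd_mul_left hb'0 h2
    exact Nat.Coprime.dvd_of_dvd_mul_right hcB h3
  -- `A B ≤ g (a + b) + 1`
  have hP : A * B ≤ g * (a + b) + 1 := by
    apply Nat.le_of_dvd (by positivity)
    apply Nat.Coprime.mul_dvd_of_dvd_of_dvd hAB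
    · have : g * (a + b) + 1 = (g * b + 1) + A * (g * a') := by rw [hA]; ring
      rw [this]
      exact dvd_add hdA (dvd_mul_right _ _)
    · have : g * (a + b) + 1 = (g * a + 1) + B * (g * b') := by rw [hB]; ring
      rw [this]
      exact dvd_add hdB (dvd_mul_right _ _)
  -- now over the integers
  obtain ⟨τ, hτ⟩ : ∃ τ : ℤ, τ = A * B - f * W := ⟨_, rfl⟩
  have hm0 : (0 : ℤ) < a' * b' := by exact_mod_cast Nat.mul_pos ha'0 hb'0
  have zA : (a : ℤ) = a' * A := by exact_mod_cast hA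
  have zB : (b : ℤ) = b' * B := by exact_mod_cast hB
  have zF : (F : ℤ) = a' * b' * f := by exact_mod_cast hf
  have z1 : (g : ℤ) * (F * W) + F + W = g * (a * b) + a + b := by exact_mod_cast e1
  have zg : (0 : ℤ) < g := by exact_mod_cast hg
  have zf : (0 : ℤ) < f := by exact_mod_cast hf0
  have zFp : (0 : ℤ) < F := by exact_mod_cast hF
  have hT : (a : ℤ) * b - F * W = a' * b' * τ := by rw [hτ, zA, zB, zF]; ring
  -- `(a - F) (b - F) = T (g F + 1)`
  have h2 : ((a : ℤ) - F) * (b - F) = (a * b - F * W) * (g * F + 1) := by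
    linear_combination (F : ℤ) * z1
  have hTpos : (0 : ℤ) < a * b - F * W := by
    have h3 : (0 : ℤ) < ((a : ℤ) - F) * (b - F) := by
      apply mul_pos
      · have : (F : ℤ) < a := by exact_mod_cast hFa
        linarith
      · have : (F : ℤ) < b := by exact_mod_cast hFb
        linarith
    rw [h2] at h3
    exact (mul_pos_iff_of_pos_right (by positivity)).1 h3
  have hτ1 : 1 ≤ τ := by
    rw [hT] at hTpos
    have := (mul_pos_iff_of_pos_left hm0).1 hTpos
    omega
  -- `S = a + b - W = a' b' (f - g τ)`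
  have hSe : (a : ℤ) + b - W = a' * b' * (f - g * τ) := by
    have : (a : ℤ) + b - W = F - g * (a * b - F * W) := by linear_combination (-1 : ℤ) * z1
    rw [this, hT, zF]; ring
  have hS1 : (0 : ℤ) < f - g * τ := by
    have h3 : (0 : ℤ) < a' * b' * (f - g * τ) := by
      rw [← hSe]
      have : (W : ℤ) < a + b := by exact_mod_cast hS
      linarith
    exact (mul_pos_iff_of_pos_left hm0).1 h3
  -- `Z = a + b` is larger than `2 a' b' f = 2 F`
  have hZ : 2 * (F : ℤ) < a + b := by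
    have h3 : (F : ℤ) < a := by exact_mod_cast hFa
    have h4 : (F : ℤ) < b := by exact_mod_cast hFb
    linarith
  have hP' : (A : ℤ) * B ≤ g * (a + b) + 1 := by exact_mod_cast hP
  have hW : (W : ℤ) = a + b - a' * b' * (f - g * τ) := by linarith
  have hAB' : (A : ℤ) * B = f * (a + b) - F * (f - g * τ) + τ := by
    have : (A : ℤ) * B = f * W + τ := by rw [hτ]; ring
    rw [this, hW, zF]; ring
  have hgt : (g : ℤ) ≤ g * τ := by
    calc (g : ℤ) = g * 1 := by ring
      _ ≤ g * τ := mul_le_mul_of_nonneg_left hτ1 zg.le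
  have h5 : (f - g) * ((a : ℤ) + b) ≤ F * (f - g * τ) := by
    have : (f - g) * ((a : ℤ) + b) = f * (a + b) - g * (a + b) := by ring
    linarith
  have h6 : (F : ℤ) * (f - g * τ) ≤ F * (f - g) :=
    mul_le_mul_of_nonneg_left (by linarith) zFp.le
  have h7 : (0 : ℤ) < f - g := by linarith
  have h8 : (f - g) * ((a : ℤ) + b) ≤ (f - g) * F := by
    calc (f - g) * ((a : ℤ) + b) ≤ F * (f - g * τ) := h5
      _ ≤ F * (f - g) := h6
      _ = (f - g) * F := by ring
  have h9 := le_of_mul_le_mul_left h8 h7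
  linarith

theorem result : ∀ v r c : ℕ, Admissible v r c → r + c - 1 ≤ v := by
  intro v r c h
  obtain ⟨h2r, h2c, hmax, hhalf, ⟨e, he⟩, hrow, hcol⟩ := h
  have hv : 0 < v := lt_of_le_of_lt (Nat.zero_le _) hmax
  have hediv : r * c / v = e := by rw [he]; exact Nat.mul_div_cancel_left _ hv
  rw [hediv] at hrow hcol
  have he2 : 2 ≤ e := by
    by_contra hcon
    push Not at hcon
    have : v * e ≤ v * 1 := Nat.mul_le_mul_left _ (by omega)
    omega
  by_contra hcon
  push Not at hcon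
  obtain ⟨x, rfl⟩ : ∃ x, r = x + 1 := ⟨r - 1, by omega⟩
  obtain ⟨y, rfl⟩ : ∃ y, c = y + 1 := ⟨c - 1, by omega⟩
  obtain ⟨E, rfl⟩ : ∃ E, e = E + 1 := ⟨e - 1, by omega⟩
  simp only [Nat.add_sub_cancel] at hrow hcol
  have hx : 0 < x := by omega
  have hy : 0 < y := by omega
  have hE : 0 < E := by omega
  obtain ⟨g, a, b, hg, hab, hxa, hyb⟩ : ∃ g a b : ℕ, 0 < g ∧ Nat.Coprime a b ∧ x = g * a ∧
      y = g * b := by
    obtain ⟨g, a, b, hg, hab, hxa, hyb⟩ := Nat.exists_coprime' (Nat.gcd_pos_of_pos_left y hx)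
    exact ⟨g, a, b, hg, hab, by rw [hxa, mul_comm], by rw [hyb, mul_comm]⟩
  subst hxa hyb
  have ha : 0 < a := Nat.pos_of_ne_zero (by rintro rfl; simp at hx)
  have hb : 0 < b := Nat.pos_of_ne_zero (by rintro rfl; simp at hy)
  -- `g ∣ E`
  obtain ⟨F, rfl⟩ : g ∣ E := by
    have h2 : g ∣ (g * b + 1) * E := dvd_trans (dvd_mul_right g a) hrow
    have h3 : Nat.Coprime g (g * b + 1) := by simp
    exact h3.dvd_of_dvd_mul_left h2
  have hF : 0 < F := Nat.pos_of_ne_zero (by rintro rfl; simp at hE)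
  have hd1 : a ∣ (g * b + 1) * F := by
    have h2 : g * a ∣ g * ((g * b + 1) * F) := by
      have : g * ((g * b + 1) * F) = (g * b + 1) * (g * F) := by ring
      rw [this]; exact hrow
    exact Nat.dvd_of_mul_dvd_mul_left hg h2
  have hd2 : b ∣ (g * a + 1) * F := by
    have h2 : g * b ∣ g * ((g * a + 1) * F) := by
      have : g * ((g * a + 1) * F) = (g * a + 1) * (g * F) := by ring
      rw [this]; exact hcol
    exact Nat.dvd_of_mul_dvd_mul_left hg h2
  -- `v = g W + 1`
  obtain ⟨w, rfl⟩ : ∃ w, v = w + 1 := ⟨v - 1, by omega⟩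
  obtain ⟨W, rfl⟩ : g ∣ w := by
    have h2 : g ∣ w + g * ((w + 1) * F) := by
      have : w + g * ((w + 1) * F) = g * (g * a * b + a + b) := by nlinarith
      rw [this]; exact dvd_mul_right _ _
    exact (Nat.dvd_add_iff_left (dvd_mul_right _ _)).2 h2
  have hWa : a < W := by
    have h2 : g * a + 1 < g * W + 1 := lt_of_le_of_lt (le_max_left _ _) hmax
    exact Nat.lt_of_mul_lt_mul_left (by omega : g * a < g * W)
  have hWb : b < W := by
    have h2 : g * b + 1 < g * W + 1 := lt_of_le_of_lt (le_max_right _ _) hmax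
    exact Nat.lt_of_mul_lt_mul_left (by omega : g * b < g * W)
  have hS : W < a + b := by
    have h2 : g * W < g * (a + b) := by rw [mul_add]; omega
    exact Nat.lt_of_mul_lt_mul_left h2
  exact core g a b F W hg ha hb hF hab (by rw [he]; ring) hWa hWb hS hd1 hd2

end Pool.Agent.Results.MP_4cb54f_co.NoSmallAdmissible
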